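import Pool.Agent.U737.MN.Stm

/-! Project MN, package Exist (helper894). -/

set_option autoImplicit false

open IntermediateField

namespace Pool.Agent.U894.MN

theorem t_Exist : Pool.Agent.U737.MN.Exist := by
  intro K Ω _ _ _ _ _ H X _ _ _ _ _ _ _ hne
  obtain ⟨N, hNfd, hNgal, ⟨g⟩⟩ := hne
  have i1 : IsAlgClosed Ω := IsAlgClosure.isAlgClosed K
  have i2 : Normal K Ω := IsAlgClosure.normal K Ω
  have i3 : Algebra.IsAlgebraic K Ω := IsAlgClosure.isAlgebraic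
  have i4 : Algebra.IsSeparable K Ω := inferInstance
  have i5 : IsGalois K Ω := ⟨⟩
  obtain ⟨x₀⟩ := ‹Nonempty X›
  let ρ : (Ω ≃ₐ[K] Ω) →* H :=
    g.toMonoidHom.comp (AlgEquiv.restrictNormalHom (F := K) (K₁ := Ω) N)
  have hρs : Function.Surjective ρ :=
    g.surjective.comp (AlgEquiv.restrictNormalHom_surjective Ω)
  have hker : N.fixingSubgroup ≤ ρ.ker := by
    intro σ hσ
    rw [← restrictNormalHom_ker N, MonoidHom.mem_ker] at hσ
    rw [MonoidHom.mem_ker]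
    change g _ = 1
    rw [hσ, map_one]
  let S : Subgroup (Ω ≃ₐ[K] Ω) := (MulAction.stabilizer H x₀).comap ρ
  have hSmem : ∀ σ, σ ∈ S ↔ ρ σ • x₀ = x₀ := fun σ => by
    rw [Subgroup.mem_comap, MulAction.mem_stabilizer_iff]
  have hkS : N.fixingSubgroup ≤ S := by
    intro σ hσ
    rw [hSmem]
    have := hker hσ
    rw [MonoidHom.mem_ker] at this
    rw [this, one_smul]
  have hopen : IsOpen (S : Set (Ω ≃ₐ[K] Ω)) := Subgroup.isOpen_mono hkS N.fixingSubgroup_isOpen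
  have hclosed : IsClosed (S : Set (Ω ≃ₐ[K] Ω)) := Subgroup.isClosed_of_isOpen _ hopen
  obtain ⟨M, hMdef⟩ : ∃ M, M = fixedField S := ⟨_, rfl⟩
  have hM : M.fixingSubgroup = S := by
    rw [hMdef]
    exact InfiniteGalois.fixingSubgroup_fixedField ⟨S, hclosed⟩
  have hMfd : FiniteDimensional K M := by
    rw [← InfiniteGalois.isOpen_iff_finite, hM]
    exact hopen
  -- extension of embeddings
  have hext : ∀ φ : M →ₐ[K] Ω, ∃ σ : Ω ≃ₐ[K] Ω, ∀ x : M, σ (x : Ω) = φ x := by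
    intro φ
    refine ⟨AlgEquiv.ofBijective (φ.liftNormal Ω) (Algebra.IsAlgebraic.algHom_bijective _), ?_⟩
    intro x
    have := AlgHom.liftNormal_commutes φ Ω x
    simpa using this
  choose s hs using hext
  have hkey : ∀ σ τ : Ω ≃ₐ[K] Ω, (∀ x : M, σ (x : Ω) = τ (x : Ω)) ↔ ρ σ • x₀ = ρ τ • x₀ := by
    intro σ τ
    have h1 : (∀ x : M, σ (x : Ω) = τ (x : Ω)) ↔ τ⁻¹ * σ ∈ M.fixingSubgroup := by
      rw [IntermediateField.mem_fixingSubgroup_iff]
      constructor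
      · intro h x hx
        have := h ⟨x, hx⟩
        change τ⁻¹ (σ x) = x
        rw [show σ x = τ x from this]
        exact τ.symm_apply_apply x
      · intro h x
        have h2 : τ⁻¹ (σ (x : Ω)) = (x : Ω) := h x x.2
        have h3 : τ (τ⁻¹ (σ (x : Ω))) = σ (x : Ω) := τ.apply_symm_apply _
        rw [← h3, h2]
    rw [h1, hM, hSmem, map_mul, map_inv, mul_smul, inv_smul_eq_iff]
  have hsφ : ∀ (φ : M →ₐ[K] Ω) (σ : Ω ≃ₐ[K] Ω), (∀ x : M, σ (x : Ω) = φ x) →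
      ρ (s φ) • x₀ = ρ σ • x₀ := by
    intro φ σ h
    rw [← hkey]
    intro x
    rw [hs, h]
  let e : (M →ₐ[K] Ω) ≃ X := Equiv.ofBijective (fun φ => ρ (s φ) • x₀) (by
    constructor
    · intro φ ψ h
      have h1 := (hkey _ _).2 h
      ext x
      rw [← hs φ, ← hs ψ]
      exact h1 x
    · intro x
      obtain ⟨h, hh⟩ := MulAction.exists_smul_eq H x₀ x
      obtain ⟨σ, hσ⟩ := hρs h
      refine ⟨σ.toAlgHom.comp M.val, ?_⟩
      change ρ (s _) • x₀ = x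
      rw [hsφ _ σ (fun x => rfl), hσ, hh])
  have he : ∀ φ, e φ = ρ (s φ) • x₀ := fun φ => rfl
  have heq : ∀ (σ : Ω ≃ₐ[K] Ω) (φ : M →ₐ[K] Ω), e (σ.toAlgHom.comp φ) = ρ σ • e φ := by
    intro σ φ
    rw [he, he, ← mul_smul, ← map_mul]
    apply hsφ
    intro x
    change σ (s φ (x : Ω)) = σ (φ x)
    rw [hs]
  refine ⟨M, hMfd, e, ?_⟩
  intro π
  constructor
  · rintro ⟨h, hh⟩
    obtain ⟨σ, hσ⟩ := hρs h
    refine ⟨σ, fun φ => ?_⟩
    rw [heq, hh, hσ]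
  · rintro ⟨σ, hσ⟩
    refine ⟨ρ σ, fun x => ?_⟩
    obtain ⟨φ, rfl⟩ := e.surjective x
    rw [← hσ, heq]

end Pool.Agent.U894.MN
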